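import Mathlib

set_option autoImplicit false

/-!
# The spheres `K(i,d-1)` are determined by their `g`-numbers (question Q2)

Every `ℤ/2`-homology `(d-1)`-sphere all of whose missing faces have dimension at most `i` and which
has the same `g`-numbers as `K(i,d-1) = (∂σ^i)^{*q} * ∂σ^r`, `d = q i + r`, `1 ≤ r ≤ i`, is isomorphic
to `K(i,d-1)`.
-/

namespace Pool.Agent.Results.MP_94a3a7_co.UniqueMinimizer

open Finset

/-- A finite abstract simplicial complex, given by the set of its faces; its faces are finite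
subsets of `V`. The empty set is a face. -/
structure Complex (V : Type) where
  /-- the faces -/
  faces : Finset (Finset V)
  /-- the empty face -/
  empty_mem : ∅ ∈ faces
  /-- subsets of faces are faces -/
  down : ∀ σ ∈ faces, ∀ τ, τ ⊆ σ → τ ∈ faces

/-! ### Reduced homology with coefficients in `ℤ/2` -/

/-- The members of `L` with `s` elements. -/
abbrev Fc {V : Type} (L : Finset (Finset V)) (s : ℕ) : Type :=
  {τ : Finset V // τ ∈ L.filter fun τ => τ.card = s}

open Classical in
/-- The boundary map over `ℤ/2` from chains on the faces with `s + 1` elements to chains on the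
faces with `s` elements. (For `s = 0` this is the augmentation map.) -/
noncomputable def bdry {V : Type} (L : Finset (Finset V)) (s : ℕ) :
    (Fc L (s + 1) → ZMod 2) →ₗ[ZMod 2] (Fc L s → ZMod 2) where
  toFun c := fun ρ => ∑ τ : Fc L (s + 1), if ρ.1 ⊆ τ.1 then c τ else 0
  map_add' := by
    intro c c'
    funext ρ
    simp only [Pi.add_apply]
    rw [← Finset.sum_add_distrib]
    refine Finset.sum_congr rfl fun τ _ => ?_
    split_ifs <;> simp
  map_smul' := by
    intro a c
    funext ρ
    simp only [Pi.smul_apply, smul_eq_mul, RingHom.id_apply]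
    rw [Finset.mul_sum]
    refine Finset.sum_congr rfl fun τ _ => ?_
    split_ifs <;> simp

/-- Cycles: the kernel of the boundary map (everything for chains on the empty face). -/
noncomputable def cyc {V : Type} (L : Finset (Finset V)) :
    (s : ℕ) → Submodule (ZMod 2) (Fc L s → ZMod 2)
  | 0 => ⊤
  | s + 1 => LinearMap.ker (bdry L s)

/-- Boundaries: the range of the boundary map. -/
noncomputable def bnd {V : Type} (L : Finset (Finset V)) (s : ℕ) :
    Submodule (ZMod 2) (Fc L s → ZMod 2) := LinearMap.range (bdry L s)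

/-- The dimension of the reduced homology group of `L` over `ℤ/2` in dimension `s - 1`, that is,
of cycles modulo boundaries on faces with `s` elements. -/
noncomputable def betti {V : Type} (L : Finset (Finset V)) (s : ℕ) : ℕ :=
  Module.finrank (ZMod 2) (cyc L s ⧸ (bnd L s).comap (cyc L s).subtype)

/-- The link of a face `σ`. -/
def Complex.link {V : Type} [DecidableEq V] (Δ : Complex V) (σ : Finset V) : Finset (Finset V) :=
  Δ.faces.filter fun G => G ∩ σ = ∅ ∧ G ∪ σ ∈ Δ.faces

/-- `Δ` is a `ℤ/2`-homology `(d-1)`-sphere: it is pure of dimension `d - 1` (all maximal faces have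
`d` elements) and the link of every face `σ`, including the empty one, has the reduced `ℤ/2`-homology
of a sphere of dimension `d - 1 - |σ|`: it has dimension one in dimension `d - 1 - |σ|` and vanishes
in all other dimensions. -/
def IsHomologySphere {V : Type} [DecidableEq V] (d : ℕ) (Δ : Complex V) : Prop :=
  (∀ σ ∈ Δ.faces, (∀ τ ∈ Δ.faces, σ ⊆ τ → τ = σ) → σ.card = d) ∧
    ∀ σ ∈ Δ.faces, ∀ s : ℕ, betti (Δ.link σ) s = if s + σ.card = d then 1 else 0

/-- `τ` is a missing face of `Δ`: it is not a face and all its proper subsets are faces. -/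
def IsMissing {V : Type} (Δ : Complex V) (τ : Finset V) : Prop :=
  τ ∉ Δ.faces ∧ ∀ ρ, ρ ⊂ τ → ρ ∈ Δ.faces

/-! ### Face numbers -/

/-- The number `f_{k-1}` of faces of dimension `k - 1`, that is, with `k` elements. -/
def fNum {V : Type} (Δ : Complex V) (k : ℕ) : ℕ := (Δ.faces.filter fun σ => σ.card = k).card

/-- The `h`-numbers `h_j = ∑_{k ≤ j} (-1)^{j-k} C(d-k, d-j) f_{k-1}`. -/
def hNum {V : Type} (d : ℕ) (Δ : Complex V) (j : ℕ) : ℤ :=
  ∑ k ∈ Finset.range (j + 1), (-1 : ℤ) ^ (j - k) * ((d - k).choose (d - j) : ℤ) * (fNum Δ k : ℤ)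

/-- The `g`-numbers: `g_0 = 1` and `g_j = h_j - h_{j-1}`. -/
def gNum {V : Type} (d : ℕ) (Δ : Complex V) : ℕ → ℤ
  | 0 => 1
  | j + 1 => hNum d Δ (j + 1) - hNum d Δ j

/-! ### The complexes `K(i,d-1)` -/

/-- The boundary complex of the `m`-simplex: all proper subsets of a set with `m + 1` elements. -/
def simplexBoundary (m : ℕ) : Complex (Fin (m + 1)) where
  faces := Finset.univ.filter fun F => F ≠ Finset.univ
  empty_mem := by
    rw [Finset.mem_filter]
    exact ⟨Finset.mem_univ _, fun h => Finset.notMem_empty (0 : Fin (m + 1))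
      (h ▸ Finset.mem_univ _)⟩
  down := by
    intro σ hσ τ hτ
    rw [Finset.mem_filter] at hσ ⊢
    refine ⟨Finset.mem_univ _, fun h => hσ.2 ?_⟩
    rw [h] at hτ
    exact Finset.univ_subset_iff.1 hτ

/-- The join of two complexes. -/
def join {V W : Type} [Fintype V] [DecidableEq V] [Fintype W] [DecidableEq W] (A : Complex V)
    (B : Complex W) : Complex (V ⊕ W) where
  faces := Finset.univ.filter fun F => F.toLeft ∈ A.faces ∧ F.toRight ∈ B.faces
  empty_mem := by
    rw [Finset.mem_filter]
    exact ⟨Finset.mem_univ _, A.empty_mem, B.empty_mem⟩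
  down := by
    intro σ hσ τ hτ
    rw [Finset.mem_filter] at hσ ⊢
    exact ⟨Finset.mem_univ _, A.down _ hσ.2.1 _ (Finset.toLeft_subset_toLeft hτ),
      B.down _ hσ.2.2 _ (Finset.toRight_subset_toRight hτ)⟩

/-- The part of `F` in the copy of `V` with index `a`. -/
def slice {V : Type} [Fintype V] [DecidableEq V] {q : ℕ} (F : Finset (Fin q × V)) (a : Fin q) :
    Finset V := Finset.univ.filter fun v => (a, v) ∈ F

/-- The join of `q` copies of a complex. -/
def joinPower {V : Type} [Fintype V] [DecidableEq V] (q : ℕ) (A : Complex V) :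
    Complex (Fin q × V) where
  faces := Finset.univ.filter fun F => ∀ a, slice F a ∈ A.faces
  empty_mem := by
    rw [Finset.mem_filter]
    refine ⟨Finset.mem_univ _, fun a => ?_⟩
    have : slice (∅ : Finset (Fin q × V)) a = ∅ := by simp [slice]
    rw [this]
    exact A.empty_mem
  down := by
    intro σ hσ τ hτ
    rw [Finset.mem_filter] at hσ ⊢
    refine ⟨Finset.mem_univ _, fun a => A.down _ (hσ.2 a) _ ?_⟩
    intro v hv
    simp only [slice, Finset.mem_filter, Finset.mem_univ, true_and] at hv ⊢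
    exact hτ hv

/-- `K(i,d-1)` for `d = q i + r`: the join of `q` copies of the boundary of the `i`-simplex with
the boundary of the `r`-simplex. -/
def K (i q r : ℕ) : Complex ((Fin q × Fin (i + 1)) ⊕ Fin (r + 1)) :=
  join (joinPower q (simplexBoundary i)) (simplexBoundary r)

/-- Isomorphism of complexes: a bijection of the vertices which carries faces to faces in both
directions. -/
def Isomorphic {V W : Type} (Δ : Complex V) (Γ : Complex W) : Prop :=
  ∃ e : V ≃ W, ∀ F : Finset V, F ∈ Δ.faces ↔ F.map e.toEmbedding ∈ Γ.faces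

/-! ### The Euler–Poincaré formula -/

section Euler

theorem Fc.mem {V : Type} {L : Finset (Finset V)} {s : ℕ} (τ : Fc L s) : τ.1 ∈ L :=
  (Finset.mem_filter.1 τ.2).1

theorem Fc.card {V : Type} {L : Finset (Finset V)} {s : ℕ} (τ : Fc L s) : τ.1.card = s :=
  (Finset.mem_filter.1 τ.2).2

variable {V : Type} {L : Finset (Finset V)}

theorem bdry_bdry (hd : ∀ σ ∈ L, ∀ τ, τ ⊆ σ → τ ∈ L) (s : ℕ) :
    (bdry L s) ∘ₗ (bdry L (s + 1)) = 0 := by
  classical
  apply LinearMap.ext
  intro c
  funext ρ
  simp only [LinearMap.coe_comp, Function.comp_apply, LinearMap.zero_apply, Pi.zero_apply]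
  show (∑ τ : Fc L (s + 1), if ρ.1 ⊆ τ.1 then
    (∑ κ : Fc L (s + 1 + 1), if τ.1 ⊆ κ.1 then c κ else 0) else 0) = 0
  have h1 : ∀ τ : Fc L (s + 1), (if ρ.1 ⊆ τ.1 then
      (∑ κ : Fc L (s + 1 + 1), if τ.1 ⊆ κ.1 then c κ else 0) else 0)
      = ∑ κ : Fc L (s + 1 + 1), if ρ.1 ⊆ τ.1 ∧ τ.1 ⊆ κ.1 then c κ else 0 := by
    intro τ
    by_cases h : ρ.1 ⊆ τ.1
    · simp [h]
    · simp [h]
  rw [Finset.sum_congr rfl fun τ _ => h1 τ, Finset.sum_comm]
  apply Finset.sum_eq_zero
  intro κ _
  rw [← Finset.sum_filter, Finset.sum_const]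
  by_cases hρκ : ρ.1 ⊆ κ.1
  · have hcard : (κ.1 \ ρ.1).card = 2 := by
      rw [Finset.card_sdiff_of_subset hρκ, κ.card, ρ.card]; omega
    obtain ⟨a, b, hab, hk⟩ := Finset.card_eq_two.1 hcard
    have ha : a ∈ κ.1 \ ρ.1 := by rw [hk]; simp
    have hb : b ∈ κ.1 \ ρ.1 := by rw [hk]; simp
    have hmk : ∀ x ∈ κ.1 \ ρ.1, insert x ρ.1 ∈ L ∧ (insert x ρ.1).card = s + 1 := by
      intro x hx
      rw [Finset.mem_sdiff] at hx
      refine ⟨hd _ κ.mem _ ?_, ?_⟩
      · intro y hy
        rcases Finset.mem_insert.1 hy with rfl | hy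
        · exact hx.1
        · exact hρκ hy
      · rw [Finset.card_insert_of_notMem hx.2, ρ.card]
    have hfil : (Finset.univ.filter fun τ : Fc L (s + 1) => ρ.1 ⊆ τ.1 ∧ τ.1 ⊆ κ.1)
        = {⟨insert a ρ.1, Finset.mem_filter.2 (hmk a ha)⟩,
          ⟨insert b ρ.1, Finset.mem_filter.2 (hmk b hb)⟩} := by
      ext τ
      simp only [Finset.mem_filter, Finset.mem_univ, true_and, Finset.mem_insert,
        Finset.mem_singleton]
      constructor
      · rintro ⟨h1, h2⟩
        have hc : (τ.1 \ ρ.1).card = 1 := by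
          rw [Finset.card_sdiff_of_subset h1, τ.card, ρ.card]; omega
        obtain ⟨x, hx⟩ := Finset.card_eq_one.1 hc
        have hτ : τ.1 = insert x ρ.1 := by
          have h3 : τ.1 = (τ.1 \ ρ.1) ∪ ρ.1 := (Finset.sdiff_union_of_subset h1).symm
          rw [h3, hx]; rfl
        have hxk : x ∈ κ.1 \ ρ.1 := by
          have hx1 : x ∈ τ.1 \ ρ.1 := by rw [hx]; simp
          rw [Finset.mem_sdiff] at hx1 ⊢
          exact ⟨h2 hx1.1, hx1.2⟩
        rw [hk] at hxk
        rcases Finset.mem_insert.1 hxk with rfl | hxb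
        · left; exact Subtype.ext hτ
        · right
          rw [Finset.mem_singleton] at hxb
          subst hxb
          exact Subtype.ext hτ
      · have hsub : ∀ x ∈ κ.1 \ ρ.1, ρ.1 ⊆ insert x ρ.1 ∧ insert x ρ.1 ⊆ κ.1 := by
          intro x hx
          refine ⟨Finset.subset_insert _ _, ?_⟩
          intro y hy
          rcases Finset.mem_insert.1 hy with rfl | hy
          · exact (Finset.mem_sdiff.1 hx).1
          · exact hρκ hy
        rintro (rfl | rfl)
        · exact hsub a ha
        · exact hsub b hb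
    rw [hfil, Finset.card_pair]
    · rw [two_nsmul]
      exact CharTwo.add_self_eq_zero _
    · intro h
      have h2 : insert a ρ.1 = insert b ρ.1 := congrArg Subtype.val h
      have h3 : a ∈ insert b ρ.1 := by rw [← h2]; exact Finset.mem_insert_self _ _
      rcases Finset.mem_insert.1 h3 with h4 | h4
      · exact hab h4
      · exact (Finset.mem_sdiff.1 ha).2 h4
  · have hfil : (Finset.univ.filter fun τ : Fc L (s + 1) => ρ.1 ⊆ τ.1 ∧ τ.1 ⊆ κ.1) = ∅ := by
      rw [Finset.filter_eq_empty_iff]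
      rintro τ _ ⟨h1, h2⟩
      exact hρκ (h1.trans h2)
    rw [hfil]; simp

/-- rank of the boundary map out of degree `s` -/
noncomputable def rk (L : Finset (Finset V)) : ℕ → ℕ
  | 0 => 0
  | s + 1 => Module.finrank (ZMod 2) (LinearMap.range (bdry L s))

theorem finrank_cyc (s : ℕ) :
    Module.finrank (ZMod 2) (cyc L s) + rk L s = Fintype.card (Fc L s) := by
  classical
  cases s with
  | zero =>
    show Module.finrank (ZMod 2) (⊤ : Submodule (ZMod 2) (Fc L 0 → ZMod 2)) + 0 = _
    rw [finrank_top, Module.finrank_fintype_fun_eq_card]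
    rfl
  | succ s =>
    show Module.finrank (ZMod 2) (LinearMap.ker (bdry L s)) +
      Module.finrank (ZMod 2) (LinearMap.range (bdry L s)) = _
    rw [add_comm, LinearMap.finrank_range_add_finrank_ker, Module.finrank_fintype_fun_eq_card]

theorem bnd_le_cyc (hd : ∀ σ ∈ L, ∀ τ, τ ⊆ σ → τ ∈ L) (s : ℕ) : bnd L s ≤ cyc L s := by
  cases s with
  | zero => exact le_top
  | succ s =>
    show LinearMap.range (bdry L (s + 1)) ≤ LinearMap.ker (bdry L s)
    rw [LinearMap.range_le_ker_iff]
    exact bdry_bdry hd s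

theorem betti_add (hd : ∀ σ ∈ L, ∀ τ, τ ⊆ σ → τ ∈ L) (s : ℕ) :
    betti L s + rk L s + rk L (s + 1) = Fintype.card (Fc L s) := by
  have h1 := finrank_cyc (L := L) s
  have h2 := Submodule.finrank_quotient_add_finrank ((bnd L s).comap (cyc L s).subtype)
  have h3 : Module.finrank (ZMod 2) ((bnd L s).comap (cyc L s).subtype) = rk L (s + 1) := by
    have := (Submodule.comapSubtypeEquivOfLe (bnd_le_cyc hd s)).finrank_eq
    rw [this]
    rfl
  unfold betti
  omega

/-- The Euler–Poincaré formula. -/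
theorem euler (hd : ∀ σ ∈ L, ∀ τ, τ ⊆ σ → τ ∈ L) (N : ℕ) (hN : ∀ σ ∈ L, σ.card ≤ N) :
    ∑ σ ∈ L, (-1 : ℤ) ^ σ.card = ∑ s ∈ Finset.range (N + 1), (-1 : ℤ) ^ s * (betti L s : ℤ) := by
  classical
  have h1 : ∑ σ ∈ L, (-1 : ℤ) ^ σ.card =
      ∑ s ∈ Finset.range (N + 1), (-1 : ℤ) ^ s * (Fintype.card (Fc L s) : ℤ) := by
    rw [← Finset.sum_fiberwise_of_maps_to (s := L) (t := Finset.range (N + 1))
      (g := fun σ => σ.card) (fun σ hσ => Finset.mem_range.2 (Nat.lt_succ_of_le (hN σ hσ)))]
    refine Finset.sum_congr rfl fun s _ => ?_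
    rw [Finset.sum_congr rfl (g := fun _ => (-1 : ℤ) ^ s)
      (fun σ hσ => by rw [(Finset.mem_filter.1 hσ).2]), Finset.sum_const, nsmul_eq_mul, mul_comm]
    congr 2
    rw [Fintype.card_coe]
  rw [h1]
  have h2 : ∀ M : ℕ, ∑ s ∈ Finset.range (M + 1), (-1 : ℤ) ^ s * (Fintype.card (Fc L s) : ℤ) =
      ∑ s ∈ Finset.range (M + 1), (-1 : ℤ) ^ s * (betti L s : ℤ) + (-1 : ℤ) ^ M * rk L (M + 1) := by
    intro M
    induction M with
    | zero =>
      have := betti_add hd 0
      simp only [zero_add, Finset.range_one, Finset.sum_singleton, pow_zero, one_mul]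
      rw [← this]
      simp [rk]
    | succ M ih =>
      rw [Finset.sum_range_succ, ih, Finset.sum_range_succ _ (M + 1)]
      have := betti_add hd (M + 1)
      rw [← this]
      push_cast
      ring
  rw [h2 N]
  have h3 : rk L (N + 1) = 0 := by
    show Module.finrank (ZMod 2) (LinearMap.range (bdry L N)) = 0
    have : IsEmpty (Fc L (N + 1)) := ⟨fun τ => by
      have := hN _ τ.mem
      rw [τ.card] at this
      omega⟩
    have hz : bdry L N = 0 := by
      apply LinearMap.ext
      intro c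
      funext ρ
      show (∑ τ : Fc L (N + 1), _) = _
      rw [Finset.univ_eq_empty, Finset.sum_empty]
      rfl
    rw [hz, LinearMap.range_zero]
    exact finrank_bot _ _
  rw [h3]
  simp

end Euler

/-! ### Eulerian complexes -/

section Main

open Polynomial

/-- every interval above a face has the Euler characteristic of a sphere -/
def Eulerian {V : Type} [DecidableEq V] (d : ℕ) (L : Finset (Finset V)) : Prop :=
  ∀ σ ∈ L, ∑ τ ∈ L with σ ⊆ τ, (-1 : ℤ) ^ τ.card = (-1 : ℤ) ^ d

theorem link_down {V : Type} [DecidableEq V] (Δ : Complex V) (σ : Finset V) :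
    ∀ τ ∈ Δ.link σ, ∀ ρ, ρ ⊆ τ → ρ ∈ Δ.link σ := by
  intro τ hτ ρ hρ
  rw [Complex.link, Finset.mem_filter] at hτ ⊢
  refine ⟨Δ.down _ hτ.1 _ hρ, ?_, Δ.down _ hτ.2.2 _ (Finset.union_subset_union_left hρ)⟩
  rw [← Finset.subset_empty, ← hτ.2.1]
  exact Finset.inter_subset_inter_right hρ

theorem card_le {V : Type} [DecidableEq V] {d : ℕ} {Δ : Complex V}
    (h : IsHomologySphere d Δ) : ∀ σ ∈ Δ.faces, σ.card ≤ d := by
  intro σ hσ
  obtain ⟨τ, hτ, hmax⟩ := Finset.exists_max_image (Δ.faces.filter fun τ => σ ⊆ τ) Finset.card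
    ⟨σ, Finset.mem_filter.2 ⟨hσ, Finset.Subset.refl _⟩⟩
  rw [Finset.mem_filter] at hτ
  have h1 := h.1 τ hτ.1 (fun ρ hρ hτρ => by
    have h2 := hmax ρ (Finset.mem_filter.2 ⟨hρ, hτ.2.trans hτρ⟩)
    exact (Finset.eq_of_subset_of_card_le hτρ h2).symm)
  rw [← h1]
  exact Finset.card_le_card hτ.2

theorem eulerian_of_sphere {V : Type} [DecidableEq V] {d : ℕ} {Δ : Complex V}
    (h : IsHomologySphere d Δ) : Eulerian d Δ.faces := by
  intro σ hσ
  have hle := card_le h
  have h1 := euler (link_down Δ σ) d (fun τ hτ => by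
    rw [Complex.link, Finset.mem_filter] at hτ
    exact hle τ hτ.1)
  have h2 : ∑ s ∈ Finset.range (d + 1), (-1 : ℤ) ^ s * (betti (Δ.link σ) s : ℤ)
      = (-1 : ℤ) ^ (d - σ.card) := by
    rw [Finset.sum_eq_single (d - σ.card)]
    · rw [h.2 σ hσ, if_pos (by have := hle σ hσ; omega)]
      simp
    · intro s _ hs
      rw [h.2 σ hσ, if_neg (by have := hle σ hσ; omega)]
      simp
    · intro hn
      exfalso
      apply hn
      rw [Finset.mem_range]
      omega
  rw [h2] at h1
  have h3 : ∑ τ ∈ Δ.faces with σ ⊆ τ, (-1 : ℤ) ^ τ.card =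
      ∑ τ ∈ Δ.link σ, (-1 : ℤ) ^ (τ.card + σ.card) := by
    symm
    refine Finset.sum_bij (fun τ _ => τ ∪ σ) ?_ ?_ ?_ ?_
    · intro τ hτ
      rw [Complex.link, Finset.mem_filter] at hτ
      rw [Finset.mem_filter]
      exact ⟨hτ.2.2, Finset.subset_union_right⟩
    · intro τ hτ ρ hρ hτρ
      rw [Complex.link, Finset.mem_filter] at hτ hρ
      have h4 : Disjoint τ σ := Finset.disjoint_iff_inter_eq_empty.2 hτ.2.1
      have h5 : Disjoint ρ σ := Finset.disjoint_iff_inter_eq_empty.2 hρ.2.1
      have h6 : (τ ∪ σ) \ σ = (ρ ∪ σ) \ σ := by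
        show (τ ∪ σ) \ σ = (ρ ∪ σ) \ σ
        have : τ ∪ σ = ρ ∪ σ := hτρ
        rw [this]
      rwa [Finset.union_sdiff_cancel_right h4, Finset.union_sdiff_cancel_right h5] at h6
    · intro ρ hρ
      rw [Finset.mem_filter] at hρ
      refine ⟨ρ \ σ, ?_, Finset.sdiff_union_of_subset hρ.2⟩
      rw [Complex.link, Finset.mem_filter]
      refine ⟨Δ.down _ hρ.1 _ Finset.sdiff_subset, Finset.sdiff_inter_self _ _, ?_⟩
      rw [Finset.sdiff_union_of_subset hρ.2]
      exact hρ.1
    · intro τ hτ
      rw [Complex.link, Finset.mem_filter] at hτ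
      rw [Finset.card_union_of_disjoint (Finset.disjoint_iff_inter_eq_empty.2 hτ.2.1)]
  rw [h3]
  have h4 : ∑ τ ∈ Δ.link σ, (-1 : ℤ) ^ (τ.card + σ.card) =
      (∑ τ ∈ Δ.link σ, (-1 : ℤ) ^ τ.card) * (-1) ^ σ.card := by
    rw [Finset.sum_mul]
    exact Finset.sum_congr rfl fun τ _ => pow_add _ _ _
  rw [h4, h1, ← pow_add, Nat.sub_add_cancel (hle σ hσ)]

/-- the `f`-polynomial -/
noncomputable def fpoly {V : Type} (L : Finset (Finset V)) : ℤ[X] := ∑ σ ∈ L, X ^ σ.card

theorem fpoly_coeff {V : Type} (L : Finset (Finset V)) (k : ℕ) :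
    (fpoly L).coeff k = ((L.filter fun σ => σ.card = k).card : ℤ) := by
  unfold fpoly
  rw [Polynomial.finsetSum_coeff]
  simp only [Polynomial.coeff_X_pow]
  rw [Finset.card_filter]
  push_cast
  refine Finset.sum_congr rfl fun σ _ => ?_
  by_cases h : σ.card = k
  · rw [if_pos h, if_pos h.symm]
  · rw [if_neg h, if_neg (Ne.symm h)]

theorem fpoly_symm {V : Type} [DecidableEq V] {d : ℕ} {L : Finset (Finset V)}
    (hd : ∀ σ ∈ L, ∀ τ, τ ⊆ σ → τ ∈ L) (h : Eulerian d L) :
    (fpoly L).comp (-1 - X) = (-1) ^ d * fpoly L := by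
  have h1 : (fpoly L).comp (-1 - X) = ∑ τ ∈ L, (-1 : ℤ[X]) ^ τ.card * (X + 1) ^ τ.card := by
    unfold fpoly
    rw [Polynomial.sum_comp]
    refine Finset.sum_congr rfl fun τ _ => ?_
    rw [Polynomial.X_pow_comp, ← mul_pow]
    congr 1
    ring
  have h2 : ∀ τ ∈ L, (-1 : ℤ[X]) ^ τ.card * (X + 1) ^ τ.card =
      ∑ σ ∈ L with σ ⊆ τ, (-1 : ℤ[X]) ^ τ.card * X ^ σ.card := by
    intro τ hτ
    rw [← Finset.mul_sum]
    congr 1
    rw [← Finset.sum_pow_mul_eq_add_pow]
    simp only [one_pow, mul_one]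
    refine Finset.sum_congr ?_ fun _ _ => rfl
    ext σ
    rw [Finset.mem_powerset, Finset.mem_filter]
    exact ⟨fun h => ⟨hd τ hτ σ h, h⟩, fun h => h.2⟩
  rw [h1, Finset.sum_congr rfl h2]
  rw [Finset.sum_congr rfl fun τ _ => Finset.sum_filter _ _, Finset.sum_comm]
  unfold fpoly
  rw [Finset.mul_sum]
  refine Finset.sum_congr rfl fun σ hσ => ?_
  rw [← Finset.sum_filter, ← Finset.sum_mul]
  congr 1
  have h3 := congrArg (fun z : ℤ => (C z : ℤ[X])) (h σ hσ)
  simp only [map_sum, map_pow, map_neg, map_one] at h3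
  exact h3


/-! ### The `f`-polynomial of `K(i,d-1)` -/

theorem fpoly_join {V W : Type} [Fintype V] [DecidableEq V] [Fintype W] [DecidableEq W]
    (A : Complex V) (B : Complex W) :
    fpoly (join A B).faces = fpoly A.faces * fpoly B.faces := by
  unfold fpoly
  rw [Finset.sum_mul_sum, ← Finset.sum_product']
  refine Finset.sum_nbij' (fun F => (F.toLeft, F.toRight)) (fun x => x.1.disjSum x.2)
    ?_ ?_ ?_ ?_ ?_
  · intro F hF
    simp only [join, Finset.mem_filter, Finset.mem_univ, true_and] at hF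
    rw [Finset.mem_product]
    exact hF
  · intro x hx
    rw [Finset.mem_product] at hx
    simp only [join, Finset.mem_filter, Finset.mem_univ, true_and]
    rw [Finset.toLeft_disjSum, Finset.toRight_disjSum]
    exact hx
  · intro F _
    exact Finset.toLeft_disjSum_toRight
  · intro x _
    simp only [Finset.toLeft_disjSum, Finset.toRight_disjSum]
  · intro F _
    rw [← pow_add, Finset.card_toLeft_add_card_toRight]

theorem card_eq_sum_slice {V : Type} [Fintype V] [DecidableEq V] {q : ℕ}
    (F : Finset (Fin q × V)) : F.card = ∑ a, (slice F a).card := by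
  rw [Finset.card_eq_sum_card_fiberwise (f := Prod.fst) (t := Finset.univ)
    (fun _ _ => Finset.mem_coe.2 (Finset.mem_univ _))]
  refine Finset.sum_congr rfl fun a _ => ?_
  refine Finset.card_nbij' (fun p => p.2) (fun v => (a, v)) ?_ ?_ ?_ ?_
  · rintro ⟨b, v⟩ hb
    simp only [Finset.coe_filter, Set.mem_ofPred_eq] at hb
    obtain ⟨hb1, hb2⟩ := hb
    subst hb2
    simp only [slice, Finset.coe_filter, Finset.mem_univ, true_and, Set.mem_ofPred_eq]
    exact hb1
  · intro v hv
    simp only [slice, Finset.coe_filter, Finset.mem_univ, true_and, Set.mem_ofPred_eq] at hv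
    simp only [Finset.coe_filter, Set.mem_ofPred_eq]
    exact ⟨hv, trivial⟩
  · rintro ⟨b, v⟩ hb
    simp only [Finset.coe_filter, Set.mem_ofPred_eq] at hb
    obtain ⟨hb1, hb2⟩ := hb
    subst hb2
    rfl
  · intro v _
    rfl

theorem fpoly_joinPower {V : Type} [Fintype V] [DecidableEq V] (q : ℕ) (A : Complex V) :
    fpoly (joinPower q A).faces = fpoly A.faces ^ q := by
  have h1 : fpoly A.faces ^ q = ∏ _a : Fin q, ∑ σ ∈ A.faces, (X : ℤ[X]) ^ σ.card := by
    rw [Finset.prod_const, Finset.card_univ, Fintype.card_fin]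
    rfl
  rw [h1, Finset.prod_univ_sum]
  unfold fpoly
  refine Finset.sum_nbij' (fun F a => slice F a)
    (fun x => Finset.univ.filter fun p => p.2 ∈ x p.1) ?_ ?_ ?_ ?_ ?_
  · intro F hF
    simp only [joinPower, Finset.mem_filter, Finset.mem_univ, true_and] at hF
    rw [Fintype.mem_piFinset]
    exact hF
  · intro x hx
    rw [Fintype.mem_piFinset] at hx
    simp only [joinPower, Finset.mem_filter, Finset.mem_univ, true_and]
    intro a
    have : slice (Finset.univ.filter fun p : Fin q × V => p.2 ∈ x p.1) a = x a := by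
      ext v
      simp [slice]
    rw [this]
    exact hx a
  · intro F _
    ext ⟨a, v⟩
    simp [slice]
  · intro x _
    funext a
    ext v
    simp [slice]
  · intro F _
    rw [Finset.prod_pow_eq_pow_sum, card_eq_sum_slice]

theorem fpoly_simplexBoundary (m : ℕ) :
    fpoly (simplexBoundary m).faces = (X + 1) ^ (m + 1) - X ^ (m + 1) := by
  have h1 : ((X : ℤ[X]) + 1) ^ (m + 1) =
      ∑ σ ∈ (Finset.univ : Finset (Finset (Fin (m + 1)))), (X : ℤ[X]) ^ σ.card := by
    have := Finset.sum_pow_mul_eq_add_pow (X : ℤ[X]) 1 (Finset.univ : Finset (Fin (m + 1)))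
    simp only [one_pow, mul_one, Finset.card_univ, Fintype.card_fin] at this
    rw [← this, Finset.powerset_univ]
  rw [h1, ← Finset.sum_filter_add_sum_filter_not Finset.univ (fun F => F ≠ Finset.univ)]
  have h2 : (Finset.univ.filter fun F : Finset (Fin (m + 1)) => ¬ F ≠ Finset.univ) =
      {Finset.univ} := by
    ext F
    simp
  rw [h2, Finset.sum_singleton, Finset.card_univ, Fintype.card_fin]
  unfold fpoly simplexBoundary
  ring

theorem boundary_symm (m : ℕ) : ((X + 1 : ℤ[X]) ^ (m + 1) - X ^ (m + 1)).comp (-1 - X) =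
    (-1) ^ m * ((X + 1) ^ (m + 1) - X ^ (m + 1)) := by
  rw [Polynomial.sub_comp, Polynomial.pow_comp, Polynomial.add_comp, Polynomial.X_comp,
    Polynomial.one_comp, Polynomial.X_pow_comp]
  have h1 : (-1 - X + 1 : ℤ[X]) = -1 * X := by ring
  have h2 : (-1 - X : ℤ[X]) = -1 * (X + 1) := by ring
  rw [h1, h2, mul_pow, mul_pow]
  ring

theorem fpoly_K_symm (i q r : ℕ) : (fpoly (K i q r).faces).comp (-1 - X) =
    (-1) ^ (q * i + r) * fpoly (K i q r).faces := by
  unfold K
  rw [fpoly_join, fpoly_joinPower, fpoly_simplexBoundary, fpoly_simplexBoundary,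
    Polynomial.mul_comp, Polynomial.pow_comp, boundary_symm, boundary_symm, mul_pow]
  ring

theorem card_le_of_mem_K {i q r : ℕ} {F : Finset ((Fin q × Fin (i + 1)) ⊕ Fin (r + 1))}
    (hF : F ∈ (K i q r).faces) : F.card ≤ q * i + r := by
  simp only [K, join, joinPower, simplexBoundary, Finset.mem_filter, Finset.mem_univ,
    true_and] at hF
  have hlt : ∀ (m : ℕ) (S : Finset (Fin (m + 1))), S ≠ Finset.univ → S.card ≤ m := by
    intro m S hS
    obtain ⟨x, hx⟩ : ∃ x, x ∉ S := by
      by_contra hcon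
      push Not at hcon
      exact hS (Finset.eq_univ_of_forall hcon)
    have h2 := Finset.card_lt_univ_of_notMem hx
    rw [Fintype.card_fin] at h2
    omega
  rw [← Finset.card_toLeft_add_card_toRight, card_eq_sum_slice]
  refine Nat.add_le_add ?_ (hlt r _ hF.2)
  refine le_trans (Finset.sum_le_card_nsmul _ _ i fun a _ => hlt i _ (hF.1 a)) ?_
  rw [Finset.card_univ, Fintype.card_fin, smul_eq_mul]

/-! ### Equal `g`-numbers imply equal face numbers -/

theorem hNum_zero {V : Type} (d : ℕ) (Δ : Complex V) : hNum d Δ 0 = 1 := by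
  unfold hNum
  simp only [zero_add, Finset.range_one, Finset.sum_singleton, Nat.sub_zero, pow_zero,
    Nat.choose_self, Nat.cast_one, one_mul]
  have : fNum Δ 0 = 1 := by
    unfold fNum
    rw [Finset.card_eq_one]
    refine ⟨∅, ?_⟩
    ext σ
    rw [Finset.mem_filter, Finset.card_eq_zero, Finset.mem_singleton]
    exact ⟨fun h => h.2, fun h => ⟨h ▸ Δ.empty_mem, h⟩⟩
  rw [this]
  rfl

theorem fNum_eq_low {V W : Type} (d : ℕ) (Δ : Complex V) (Γ : Complex W)
    (hg : ∀ j, j ≤ d / 2 → gNum d Δ j = gNum d Γ j) :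
    ∀ k, k ≤ d / 2 → fNum Δ k = fNum Γ k := by
  have hh : ∀ j, j ≤ d / 2 → hNum d Δ j = hNum d Γ j := by
    intro j
    induction j with
    | zero => intro _; rw [hNum_zero, hNum_zero]
    | succ j ih =>
      intro hj
      have h1 := ih (by omega)
      have h2 := hg (j + 1) hj
      simp only [gNum] at h2
      linarith
  intro k
  induction k using Nat.strong_induction_on with
  | _ k ih =>
    intro hk
    have h1 := hh k hk
    unfold hNum at h1
    rw [Finset.sum_range_succ, Finset.sum_range_succ] at h1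
    rw [Finset.sum_congr rfl (fun j hj => by
      rw [ih j (Finset.mem_range.1 hj) (by have := Finset.mem_range.1 hj; omega)])] at h1
    simp only [Nat.sub_self, pow_zero, Nat.choose_self, Nat.cast_one, one_mul] at h1
    have h2 : (fNum Δ k : ℤ) = fNum Γ k := by linarith
    exact_mod_cast h2

theorem poly_zero {d : ℕ} {D : ℤ[X]} (hdeg : D.natDegree ≤ d)
    (hsymm : D.comp (-1 - X) = (-1) ^ d * D) (hlow : ∀ k, k ≤ d / 2 → D.coeff k = 0) :
    D = 0 := by
  by_contra hne
  have h1 : (X : ℤ[X]) ^ (d / 2 + 1) ∣ D := by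
    rw [Polynomial.X_pow_dvd_iff]
    intro k hk
    exact hlow k (by omega)
  have h2 : (X + 1 : ℤ[X]) ^ (d / 2 + 1) ∣ D := by
    obtain ⟨E, hE⟩ := h1
    have h3 : D.comp (-1 - X) = (-1 - X) ^ (d / 2 + 1) * E.comp (-1 - X) := by
      conv_lhs => rw [hE]
      rw [Polynomial.mul_comp, Polynomial.X_pow_comp]
    have h4 : D = (X + 1) ^ (d / 2 + 1) * ((-1) ^ d * (-1) ^ (d / 2 + 1) * E.comp (-1 - X)) := by
      have h5 : D = (-1) ^ d * D.comp (-1 - X) := by
        rw [hsymm, ← mul_assoc, ← mul_pow]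
        simp
      have h6 : (-1 - X : ℤ[X]) = -1 * (X + 1) := by ring
      rw [h5, h3, h6, mul_pow]
      rw [← h6]
      ring
    exact ⟨_, h4⟩
  have hcop : IsCoprime ((X : ℤ[X]) ^ (d / 2 + 1)) ((X + 1) ^ (d / 2 + 1)) := by
    apply IsCoprime.pow
    exact ⟨-1, 1, by ring⟩
  have h3 := hcop.mul_dvd h1 h2
  have h4 := Polynomial.natDegree_le_of_dvd h3 hne
  have h5 : ((X : ℤ[X]) ^ (d / 2 + 1) * (X + 1) ^ (d / 2 + 1)).natDegree =
      2 * (d / 2 + 1) := by
    have hm : ((X : ℤ[X]) + 1).Monic := Polynomial.monic_X_add_C 1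
    rw [Polynomial.Monic.natDegree_mul (Polynomial.monic_X_pow _) (hm.pow _),
      Polynomial.natDegree_X_pow, hm.natDegree_pow]
    have : ((X : ℤ[X]) + 1).natDegree = 1 := Polynomial.natDegree_X_add_C 1
    rw [this]
    ring
  omega

theorem natDegree_fpoly_le {V : Type} {d : ℕ} {L : Finset (Finset V)}
    (h : ∀ σ ∈ L, σ.card ≤ d) : (fpoly L).natDegree ≤ d := by
  unfold fpoly
  refine Polynomial.natDegree_sum_le_of_forall_le _ _ fun σ hσ => ?_
  rw [Polynomial.natDegree_X_pow]
  exact h σ hσ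

theorem fNum_eq {V : Type} [DecidableEq V] {i q r d : ℕ} (hd : d = q * i + r) (Δ : Complex V)
    (hΔ : IsHomologySphere d Δ)
    (hg : ∀ j, j ≤ d / 2 → gNum d Δ j = gNum d (K i q r) j) (k : ℕ) :
    fNum Δ k = fNum (K i q r) k := by
  have h0 : fpoly Δ.faces - fpoly (K i q r).faces = 0 := by
    apply poly_zero (d := d)
    · refine (Polynomial.natDegree_sub_le _ _).trans (max_le ?_ ?_)
      · exact natDegree_fpoly_le (card_le hΔ)
      · exact natDegree_fpoly_le fun F hF => by rw [hd]; exact card_le_of_mem_K hF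
    · rw [Polynomial.sub_comp, fpoly_symm Δ.down (eulerian_of_sphere hΔ), fpoly_K_symm, hd]
      ring
    · intro k hk
      rw [Polynomial.coeff_sub, fpoly_coeff, fpoly_coeff]
      have := fNum_eq_low d Δ (K i q r) hg k hk
      unfold fNum at this
      rw [this, sub_self]
  have h1 := congrArg (fun p => Polynomial.coeff p k) h0
  simp only [Polynomial.coeff_sub, fpoly_coeff, Polynomial.coeff_zero] at h1
  unfold fNum
  have h2 : ((Δ.faces.filter fun σ => σ.card = k).card : ℤ) =
    (((K i q r).faces.filter fun σ => σ.card = k).card : ℤ) := by linarith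
  exact_mod_cast h2


/-! ### Missing faces -/

theorem exists_missing {V : Type} [DecidableEq V] (Δ : Complex V) (S : Finset V)
    (hS : S ∉ Δ.faces) : ∃ M, M ⊆ S ∧ IsMissing Δ M := by
  obtain ⟨M, hM, hmin⟩ := Finset.exists_min_image (S.powerset.filter fun M => M ∉ Δ.faces)
    Finset.card ⟨S, Finset.mem_filter.2 ⟨Finset.mem_powerset.2 (Finset.Subset.refl _), hS⟩⟩
  rw [Finset.mem_filter, Finset.mem_powerset] at hM
  refine ⟨M, hM.1, hM.2, fun ρ hρ => ?_⟩
  by_contra hcon
  have h1 := hmin ρ (Finset.mem_filter.2 ⟨Finset.mem_powerset.2 (hρ.1.trans hM.1), hcon⟩)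
  have h2 := Finset.card_lt_card hρ
  omega

theorem mem_missing {V : Type} [DecidableEq V] {d : ℕ} (Δ : Complex V)
    (h : Eulerian d Δ.faces) (v : V) : ∃ M, IsMissing Δ M ∧ v ∈ M := by
  by_contra hcon
  push Not at hcon
  have hins : ∀ F ∈ Δ.faces, insert v F ∈ Δ.faces := by
    intro F hF
    by_contra hn
    obtain ⟨M, hM, hMm⟩ := exists_missing Δ _ hn
    apply hMm.1
    apply Δ.down _ hF
    intro x hx
    rcases Finset.mem_insert.1 (hM hx) with rfl | h1
    · exact absurd hx (hcon M hMm)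
    · exact h1
  have h0 := h ∅ Δ.empty_mem
  have h1 : ∑ τ ∈ Δ.faces with ∅ ⊆ τ, (-1 : ℤ) ^ τ.card = 0 := by
    have hfil : (Δ.faces.filter fun τ => ∅ ⊆ τ) = Δ.faces :=
      Finset.filter_true_of_mem fun τ _ => Finset.empty_subset τ
    rw [hfil]
    refine Finset.sum_involution (fun τ _ => if v ∈ τ then τ.erase v else insert v τ)
      ?_ ?_ ?_ ?_
    · intro τ _
      by_cases hv : v ∈ τ
      · simp only [hv, if_true]
        have := Finset.card_erase_add_one hv
        rw [← this, pow_succ]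
        ring
      · simp only [hv, if_false]
        rw [Finset.card_insert_of_notMem hv, pow_succ]
        ring
    · intro τ _ _ heq
      by_cases hv : v ∈ τ
      · simp only [hv, if_true] at heq
        rw [← heq] at hv
        exact Finset.notMem_erase _ _ hv
      · simp only [hv, if_false] at heq
        apply hv
        rw [← heq]
        exact Finset.mem_insert_self _ _
    · intro τ hτ
      by_cases hv : v ∈ τ
      · simp only [hv, if_true]
        exact Δ.down _ hτ _ (Finset.erase_subset _ _)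
      · simp only [hv, if_false]
        exact hins τ hτ
    · intro τ _
      by_cases hv : v ∈ τ
      · simp only [hv, if_true, Finset.notMem_erase, if_false]
        exact Finset.insert_erase hv
      · simp only [hv, if_false, Finset.mem_insert_self, if_true]
        exact Finset.erase_insert hv
  rw [h1] at h0
  exact absurd h0.symm (pow_ne_zero _ (by norm_num))

/-! ### Counting non-faces -/

/-- the non-faces with `s` elements which do not contain `B` -/
def other {U : Type} [Fintype U] [DecidableEq U] (Γ : Complex U) (B : Finset U) (s : ℕ) :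
    Finset (Finset U) :=
  (Finset.powersetCard s Finset.univ).filter fun S => S ∉ Γ.faces ∧ ¬ B ⊆ S

theorem superset_card {U : Type} [Fintype U] [DecidableEq U] (B : Finset U) (s : ℕ) :
    ((Finset.powersetCard s Finset.univ).filter fun S => B ⊆ S).card =
      if B.card ≤ s then (Fintype.card U - B.card).choose (s - B.card) else 0 := by
  split_ifs with h
  · rw [← Finset.card_univ, ← Finset.card_sdiff_of_subset (Finset.subset_univ B),
      ← Finset.card_powersetCard]
    refine Finset.card_nbij' (fun S => S \ B) (fun S => S ∪ B) ?_ ?_ ?_ ?_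
    · intro S hS
      rw [Finset.mem_coe, Finset.mem_filter, Finset.mem_powersetCard] at hS
      rw [Finset.mem_coe, Finset.mem_powersetCard]
      refine ⟨Finset.sdiff_subset_sdiff (Finset.subset_univ _) (Finset.Subset.refl _), ?_⟩
      rw [Finset.card_sdiff_of_subset hS.2, hS.1.2]
    · intro S hS
      rw [Finset.mem_coe, Finset.mem_powersetCard] at hS
      rw [Finset.mem_coe, Finset.mem_filter, Finset.mem_powersetCard]
      refine ⟨⟨Finset.subset_univ _, ?_⟩, Finset.subset_union_right⟩
      rw [Finset.card_union_of_disjoint, hS.2]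
      · omega
      · rw [Finset.disjoint_left]
        intro x hx hxB
        exact (Finset.mem_sdiff.1 (hS.1 hx)).2 hxB
    · intro S hS
      rw [Finset.mem_coe, Finset.mem_filter] at hS
      exact Finset.sdiff_union_of_subset hS.2
    · intro S hS
      rw [Finset.mem_coe, Finset.mem_powersetCard] at hS
      apply Finset.union_sdiff_cancel_right
      rw [Finset.disjoint_left]
      intro x hx hxB
      exact (Finset.mem_sdiff.1 (hS.1 hx)).2 hxB
  · rw [Finset.card_eq_zero, Finset.filter_eq_empty_iff]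
    intro S hS hBS
    rw [Finset.mem_powersetCard] at hS
    have := Finset.card_le_card hBS
    omega

theorem count {U : Type} [Fintype U] [DecidableEq U] (Γ : Complex U) (B : Finset U)
    (hB : B ∉ Γ.faces) (s : ℕ) :
    (Fintype.card U).choose s = fNum Γ s +
      (if B.card ≤ s then (Fintype.card U - B.card).choose (s - B.card) else 0) +
      (other Γ B s).card := by
  rw [← superset_card, ← Finset.card_univ, ← Finset.card_powersetCard]
  have h1 : fNum Γ s = ((Finset.powersetCard s Finset.univ).filter fun S => S ∈ Γ.faces).card := by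
    unfold fNum
    congr 1
    ext S
    rw [Finset.mem_filter, Finset.mem_filter, Finset.mem_powersetCard]
    exact ⟨fun h => ⟨⟨Finset.subset_univ _, h.2⟩, h.1⟩, fun h => ⟨h.2, h.1.2⟩⟩
  rw [h1, ← Finset.card_filter_add_card_filter_not (s := Finset.powersetCard s Finset.univ)
    (fun S => S ∈ Γ.faces), add_assoc]
  congr 1
  rw [← Finset.card_filter_add_card_filter_not (s := (Finset.powersetCard s
    Finset.univ).filter fun S => ¬ S ∈ Γ.faces) (fun S => B ⊆ S)]
  congr 1
  · congr 1
    rw [Finset.filter_filter]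
    refine Finset.filter_congr fun S _ => ?_
    exact ⟨fun h => h.2, fun h => ⟨fun hS => hB (Γ.down _ hS _ h), h⟩⟩
  · unfold other
    rw [Finset.filter_filter]

/-- the last block of the vertex set of `K(i,d-1)` -/
def lastBlock (i q r : ℕ) : Finset ((Fin q × Fin (i + 1)) ⊕ Fin (r + 1)) :=
  Finset.univ.map Function.Embedding.inr

theorem lastBlock_card (i q r : ℕ) : (lastBlock i q r).card = r + 1 := by
  unfold lastBlock
  rw [Finset.card_map, Finset.card_univ, Fintype.card_fin]

theorem lastBlock_subset_iff {i q r : ℕ} (S : Finset ((Fin q × Fin (i + 1)) ⊕ Fin (r + 1))) :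
    lastBlock i q r ⊆ S ↔ S.toRight = Finset.univ := by
  constructor
  · intro h
    apply Finset.eq_univ_of_forall
    intro y
    rw [Finset.mem_toRight]
    apply h
    unfold lastBlock
    rw [Finset.mem_map]
    exact ⟨y, Finset.mem_univ _, rfl⟩
  · intro h x hx
    unfold lastBlock at hx
    rw [Finset.mem_map] at hx
    obtain ⟨y, _, rfl⟩ := hx
    have : y ∈ S.toRight := by rw [h]; exact Finset.mem_univ _
    exact Finset.mem_toRight.1 this

theorem mem_K_iff {i q r : ℕ} (S : Finset ((Fin q × Fin (i + 1)) ⊕ Fin (r + 1))) :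
    S ∈ (K i q r).faces ↔ (∀ a, slice S.toLeft a ≠ Finset.univ) ∧ S.toRight ≠ Finset.univ := by
  simp only [K, join, joinPower, simplexBoundary, Finset.mem_filter, Finset.mem_univ, true_and]

theorem lastBlock_notMem (i q r : ℕ) : lastBlock i q r ∉ (K i q r).faces := by
  rw [mem_K_iff]
  intro h
  exact h.2 ((lastBlock_subset_iff _).1 (Finset.Subset.refl _))

theorem slice_card_le {V : Type} [Fintype V] [DecidableEq V] {q : ℕ} (F : Finset (Fin q × V))
    (a : Fin q) : (slice F a).card ≤ F.card := by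
  rw [card_eq_sum_slice F]
  exact Finset.single_le_sum (f := fun a => (slice F a).card) (fun _ _ => Nat.zero_le _)
    (Finset.mem_univ a)

/-- the block with index `a` -/
def block (i q r : ℕ) (a : Fin q) : Finset ((Fin q × Fin (i + 1)) ⊕ Fin (r + 1)) :=
  Finset.univ.map ⟨fun x : Fin (i + 1) => Sum.inl (a, x), fun x y h => by
    have := Sum.inl.inj h
    exact (Prod.mk.inj this).2⟩

theorem other_K_small {i q r s : ℕ} (hs : s ≤ i) : (other (K i q r) (lastBlock i q r) s) = ∅ := by
  unfold other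
  rw [Finset.filter_eq_empty_iff]
  rintro S hS ⟨h1, h2⟩
  rw [Finset.mem_powersetCard] at hS
  rw [lastBlock_subset_iff] at h2
  apply h1
  rw [mem_K_iff]
  refine ⟨fun a ha => ?_, h2⟩
  have h3 := slice_card_le S.toLeft a
  rw [ha, Finset.card_univ, Fintype.card_fin] at h3
  have h4 := Finset.card_toLeft_add_card_toRight (u := S)
  omega

theorem other_K_card_le {i q r : ℕ} :
    (other (K i q r) (lastBlock i q r) (i + 1)).card ≤ q := by
  have hsub : other (K i q r) (lastBlock i q r) (i + 1) ⊆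
      (Finset.univ : Finset (Fin q)).image (block i q r) := by
    intro S hS
    unfold other at hS
    rw [Finset.mem_filter, Finset.mem_powersetCard, lastBlock_subset_iff, mem_K_iff] at hS
    obtain ⟨⟨_, hc⟩, h1, h2⟩ := hS
    obtain ⟨a, ha⟩ : ∃ a, slice S.toLeft a = Finset.univ := by
      by_contra hcon
      push Not at hcon
      exact h1 ⟨hcon, h2⟩
    rw [Finset.mem_image]
    refine ⟨a, Finset.mem_univ _, ?_⟩
    apply Finset.eq_of_subset_of_card_le
    · intro x hx
      unfold block at hx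
      rw [Finset.mem_map] at hx
      obtain ⟨y, _, rfl⟩ := hx
      have h3 : y ∈ slice S.toLeft a := by rw [ha]; exact Finset.mem_univ _
      unfold slice at h3
      rw [Finset.mem_filter] at h3
      exact Finset.mem_toLeft.1 h3.2
    · unfold block
      rw [Finset.card_map, Finset.card_univ, Fintype.card_fin, hc]
  refine (Finset.card_le_card hsub).trans (Finset.card_image_le.trans ?_)
  rw [Finset.card_univ, Fintype.card_fin]

theorem all_small {i q r s : ℕ} (hri : r ≤ i) (hs : s ≤ r) :
    fNum (K i q r) s = (Fintype.card ((Fin q × Fin (i + 1)) ⊕ Fin (r + 1))).choose s := by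
  have h1 := count (K i q r) (lastBlock i q r) (lastBlock_notMem i q r) s
  rw [other_K_small (hs.trans hri), lastBlock_card, if_neg (by omega)] at h1
  simpa using h1.symm

theorem card_W (i q r : ℕ) : Fintype.card ((Fin q × Fin (i + 1)) ⊕ Fin (r + 1)) =
    q * (i + 1) + (r + 1) := by
  simp

/-- The number of vertices. -/
theorem card_vertices {V : Type} [Fintype V] [DecidableEq V] (Δ : Complex V)
    (hv : ∀ v, {v} ∈ Δ.faces) : fNum Δ 1 = Fintype.card V := by
  unfold fNum
  rw [← Finset.card_univ]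
  symm
  refine Finset.card_bij (fun v _ => {v}) ?_ ?_ ?_
  · intro v _
    rw [Finset.mem_filter]
    exact ⟨hv v, Finset.card_singleton v⟩
  · intro v _ w _ h
    exact Finset.singleton_injective h
  · intro σ hσ
    rw [Finset.mem_filter] at hσ
    obtain ⟨v, hv⟩ := Finset.card_eq_one.1 hσ.2
    exact ⟨v, Finset.mem_univ _, hv.symm⟩

/-- **Question Q2.** Let `d = q i + r` with `1 ≤ r ≤ i` and let `Δ` be a `ℤ/2`-homology
`(d-1)`-sphere all of whose missing faces have dimension at most `i` (at most `i + 1` elements).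
If `g_j(Δ) = g_j(K(i,d-1))` for all `0 ≤ j ≤ d/2` then `Δ` is isomorphic to `K(i,d-1)`. -/
theorem result (i q r d : ℕ) (hr : 1 ≤ r) (hri : r ≤ i) (hd : d = q * i + r) (V : Type)
    [Fintype V] [DecidableEq V] (Δ : Complex V) (hvert : ∀ v, {v} ∈ Δ.faces)
    (hsphere : IsHomologySphere d Δ) (hmissing : ∀ τ, IsMissing Δ τ → τ.card ≤ i + 1)
    (hg : ∀ j, j ≤ d / 2 → gNum d Δ j = gNum d (K i q r) j) :
    Isomorphic Δ (K i q r) := by
  have hf := fNum_eq hd Δ hsphere hg
  have hE := eulerian_of_sphere hsphere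
  -- the number of vertices
  have hn : Fintype.card V = q * (i + 1) + (r + 1) := by
    rw [← card_vertices Δ hvert, hf, all_small hri hr, card_W, Nat.choose_one_right]
  have hn' : Fintype.card V = Fintype.card ((Fin q × Fin (i + 1)) ⊕ Fin (r + 1)) := by
    rw [hn, card_W]
  -- a non-face with `r + 1` elements
  obtain ⟨B, hBc, hB⟩ : ∃ B : Finset V, B.card = r + 1 ∧ B ∉ Δ.faces := by
    by_contra hcon
    push Not at hcon
    have h1 : fNum Δ (r + 1) = (Fintype.card V).choose (r + 1) := by
      unfold fNum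
      rw [← Finset.card_univ, ← Finset.card_powersetCard]
      congr 1
      ext S
      rw [Finset.mem_filter, Finset.mem_powersetCard]
      exact ⟨fun h => ⟨Finset.subset_univ _, h.2⟩, fun h => ⟨hcon S h.2, h.2⟩⟩
    have h2 := count (K i q r) (lastBlock i q r) (lastBlock_notMem i q r) (r + 1)
    rw [lastBlock_card, if_pos le_rfl, Nat.sub_self, Nat.choose_zero_right, ← hf, h1, hn'] at h2
    omega
  -- comparison of the numbers of the other non-faces
  have hother : ∀ s, (other Δ B s).card = (other (K i q r) (lastBlock i q r) s).card := by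
    intro s
    have h1 := count Δ B hB s
    have h2 := count (K i q r) (lastBlock i q r) (lastBlock_notMem i q r) s
    rw [hBc, hf, hn'] at h1
    rw [lastBlock_card] at h2
    omega
  have hsmall : ∀ s, s ≤ i → other Δ B s = ∅ := by
    intro s hs
    rw [← Finset.card_eq_zero, hother, other_K_small hs, Finset.card_empty]
  have hle : (other Δ B (i + 1)).card ≤ q := by
    rw [hother]
    exact other_K_card_le
  -- missing faces
  have hmiss : ∀ M, IsMissing Δ M → M = B ∨ M ∈ other Δ B (i + 1) := by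
    intro M hM
    by_cases hBM : B ⊆ M
    · left
      by_contra hne
      exact hB (hM.2 B (Finset.ssubset_iff_subset_ne.2 ⟨hBM, fun h => hne h.symm⟩))
    · right
      have h1 : M ∈ other Δ B M.card := by
        unfold other
        rw [Finset.mem_filter, Finset.mem_powersetCard]
        exact ⟨⟨Finset.subset_univ _, rfl⟩, hM.1, hBM⟩
      have h2 := hmissing M hM
      have h3 : ¬ M.card ≤ i := by
        intro h4
        rw [hsmall _ h4] at h1
        exact Finset.notMem_empty _ h1
      have h5 : M.card = i + 1 := by omega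
      rwa [h5] at h1
  have hcover : ∀ v : V, v ∈ B ∨ ∃ N ∈ other Δ B (i + 1), v ∈ N := by
    intro v
    obtain ⟨M, hM, hvM⟩ := mem_missing Δ hE v
    rcases hmiss M hM with rfl | h
    · exact Or.inl hvM
    · exact Or.inr ⟨M, h, hvM⟩
  have hNcard : ∀ N ∈ other Δ B (i + 1), N.card = i + 1 := by
    intro N hN
    unfold other at hN
    rw [Finset.mem_filter, Finset.mem_powersetCard] at hN
    exact hN.1.2
  have hNnot : ∀ N ∈ other Δ B (i + 1), N ∉ Δ.faces := by
    intro N hN
    unfold other at hN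
    rw [Finset.mem_filter] at hN
    exact hN.2.1
  -- there are exactly `q` of them
  have hq : (other Δ B (i + 1)).card = q := by
    have h1 : (Finset.univ : Finset V) ⊆ B ∪ (other Δ B (i + 1)).biUnion id := by
      intro v _
      rw [Finset.mem_union, Finset.mem_biUnion]
      exact hcover v
    have h2 := Finset.card_le_card h1
    have h3 := Finset.card_union_le B ((other Δ B (i + 1)).biUnion id)
    have h4 : ((other Δ B (i + 1)).biUnion id).card ≤ (other Δ B (i + 1)).card * (i + 1) :=
      Finset.card_biUnion_le_card_mul _ _ _ fun N hN => (hNcard N hN).le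
    rw [Finset.card_univ, hn] at h2
    have h5 : q * (i + 1) ≤ (other Δ B (i + 1)).card * (i + 1) := by omega
    exact le_antisymm hle (Nat.le_of_mul_le_mul_right h5 (Nat.succ_pos i))
  -- the bijection
  let ν : {N // N ∈ other Δ B (i + 1)} ≃ Fin q := Finset.equivFinOfCardEq hq
  let β : {x // x ∈ B} ≃ Fin (r + 1) := Finset.equivFinOfCardEq hBc
  let ε : (N : {N // N ∈ other Δ B (i + 1)}) → {x // x ∈ N.1} ≃ Fin (i + 1) := fun N =>
    Finset.equivFinOfCardEq (hNcard N.1 N.2)
  let φ : (Fin q × Fin (i + 1)) ⊕ Fin (r + 1) → V :=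
    Sum.elim (fun p => ((ε (ν.symm p.1)).symm p.2).1) (fun y => (β.symm y).1)
  have hφ : Function.Surjective φ := by
    intro v
    rcases hcover v with h | ⟨N, hN, hvN⟩
    · refine ⟨Sum.inr (β ⟨v, h⟩), ?_⟩
      show (β.symm (β ⟨v, h⟩)).1 = v
      rw [Equiv.symm_apply_apply]
    · refine ⟨Sum.inl (ν ⟨N, hN⟩, ε ⟨N, hN⟩ ⟨v, hvN⟩), ?_⟩
      show ((ε (ν.symm (ν ⟨N, hN⟩))).symm (ε ⟨N, hN⟩ ⟨v, hvN⟩)).1 = v
      have h1 : ν.symm (ν ⟨N, hN⟩) = ⟨N, hN⟩ := Equiv.symm_apply_apply _ _
      rw [h1, Equiv.symm_apply_apply]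
  have hbij : Function.Bijective φ :=
    (Fintype.bijective_iff_surjective_and_card φ).2 ⟨hφ, hn'.symm⟩
  let e : (Fin q × Fin (i + 1)) ⊕ Fin (r + 1) ≃ V := Equiv.ofBijective φ hbij
  refine ⟨e.symm, fun F => ?_⟩
  have hmem : ∀ w, w ∈ F.map e.symm.toEmbedding ↔ φ w ∈ F := by
    intro w
    rw [Finset.mem_map_equiv, Equiv.symm_symm]
    rfl
  rw [mem_K_iff]
  have hR : (F.map e.symm.toEmbedding).toRight = Finset.univ ↔ B ⊆ F := by
    rw [Finset.eq_univ_iff_forall]
    constructor
    · intro h x hx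
      have h1 := h (β ⟨x, hx⟩)
      rw [Finset.mem_toRight, hmem] at h1
      have h2 : φ (Sum.inr (β ⟨x, hx⟩)) = x := by
        show (β.symm (β ⟨x, hx⟩)).1 = x
        rw [Equiv.symm_apply_apply]
      rwa [h2] at h1
    · intro h y
      rw [Finset.mem_toRight, hmem]
      exact h (β.symm y).2
  have hL : ∀ a, slice (F.map e.symm.toEmbedding).toLeft a = Finset.univ ↔
      (ν.symm a).1 ⊆ F := by
    intro a
    rw [Finset.eq_univ_iff_forall]
    constructor
    · intro h x hx
      have h1 := h (ε (ν.symm a) ⟨x, hx⟩)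
      unfold slice at h1
      rw [Finset.mem_filter, Finset.mem_toLeft, hmem] at h1
      have h2 : φ (Sum.inl (a, ε (ν.symm a) ⟨x, hx⟩)) = x := by
        show ((ε (ν.symm a)).symm (ε (ν.symm a) ⟨x, hx⟩)).1 = x
        rw [Equiv.symm_apply_apply]
      rw [h2] at h1
      exact h1.2
    · intro h y
      unfold slice
      rw [Finset.mem_filter, Finset.mem_toLeft, hmem]
      exact ⟨Finset.mem_univ _, h ((ε (ν.symm a)).symm y).2⟩
  constructor
  · intro hF
    refine ⟨fun a ha => ?_, fun h => ?_⟩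
    · exact hNnot _ (ν.symm a).2 (Δ.down _ hF _ ((hL a).1 ha))
    · exact hB (Δ.down _ hF _ (hR.1 h))
  · rintro ⟨h1, h2⟩
    by_contra hF
    obtain ⟨M, hMF, hM⟩ := exists_missing Δ F hF
    rcases hmiss M hM with rfl | hN
    · exact h2 (hR.2 hMF)
    · apply h1 (ν ⟨M, hN⟩)
      rw [hL]
      have h3 : ν.symm (ν ⟨M, hN⟩) = ⟨M, hN⟩ := Equiv.symm_apply_apply _ _
      rw [h3]
      exact hMF

end Main

end Pool.Agent.Results.MP_94a3a7_co.UniqueMinimizer
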